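import Pool.Agent.Helper99.SC.Topo

/-!
# Networks on a grid have drawings, part A: ports, rotations and potentials (module SC9)
-/

set_option autoImplicit false
set_option maxHeartbeats 4000000

namespace Pool.Agent.Helper91.SCNet

open Pool.Agent.Helper99.SC Equiv

/-- the ports of a node -/
inductive Port | W | E | N | S | I | O
  deriving DecidableEq

instance : Fintype Port where
  elems := {.W, .E, .N, .S, .I, .O}
  complete := by intro x; cases x <;> decide

/-- the ports of a vertex -/
inductive VPort | E | N | W | S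
  deriving DecidableEq

instance : Fintype VPort where
  elems := {.E, .N, .W, .S}
  complete := by intro x; cases x <;> decide

/-- darts, without bounds for the coordinates -/
inductive RD
  | v (x : ℕ) (k : VPort)
  | nd (b : Bool) (x y : ℕ) (p : Port)

/-- the rotation of the ports of a node, on the side `true` -/
def nr0 : Bool → Bool → Port → Port
  | true, true, .W => .S
  | true, true, .S => .I
  | true, true, .I => .W
  | true, true, .O => .E
  | true, true, .E => .N
  | true, true, .N => .O
  | true, false, .E => .I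
  | true, false, .I => .S
  | true, false, .S => .E
  | true, false, .N => .W
  | true, false, .W => .O
  | true, false, .O => .N
  | false, true, .N => .W
  | false, true, .W => .I
  | false, true, .I => .N
  | false, true, .E => .O
  | false, true, .O => .S
  | false, true, .S => .E
  | false, false, .E => .N
  | false, false, .N => .I
  | false, false, .I => .E
  | false, false, .O => .W
  | false, false, .W => .S
  | false, false, .S => .O

/-- the rotation of the ports of a node -/
def nr (s u e : Bool) (p : Port) : Port := if s then nr0 u e p else nr0 u e (nr0 u e p)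

theorem nr_cube : ∀ s u e p, nr s u e (nr s u e (nr s u e p)) = p := by decide

/-- the port is at the first place of the node -/
def isIn (u e : Bool) : Port → Bool
  | .W => e
  | .E => !e
  | .S => u
  | .N => !u
  | .I => true
  | .O => false

theorem isIn_nr : ∀ s u e p, isIn u e (nr s u e p) = isIn u e p := by decide

theorem nr_orbit : ∀ s u e p q, isIn u e p = isIn u e q →
    q = p ∨ q = nr s u e p ∨ q = nr s u e (nr s u e p) := by decide

/-- the rotation of the ports of a vertex -/
def vr : VPort → VPort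
  | .E => .N
  | .N => .W
  | .W => .S
  | .S => .E

theorem vr_four : ∀ p, vr (vr (vr (vr p))) = p := by decide

theorem vr_orbit : ∀ p q, q = p ∨ q = vr p ∨ q = vr (vr p) ∨ q = vr (vr (vr p)) := by decide

/-- the direction of a dart at a port of a node: outgoing darts of network arcs are directed
forward at the out-ports -/
def fwp (u e : Bool) : Port → Bool
  | .W => !e
  | .E => e
  | .S => !u
  | .N => u
  | .I => true
  | .O => false

/-- the stem of a place -/
def isStem : Port → Bool
  | .I => true
  | .O => true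
  | _ => false

theorem fwp_smooth : ∀ u e p q, isIn u e p = isIn u e q → p ≠ q →
    (isStem p = true ∨ isStem q = true) → fwp u e p = !fwp u e q := by decide

/-- the other end of the arc -/
def rr : RD → RD
  | .v x .E => .v (x + 1) .W
  | .v 0 .W => .v 0 .W
  | .v (x + 1) .W => .v x .E
  | .v x .N => .nd true x 0 .S
  | .v x .S => .nd false x 0 .S
  | .nd b x y .E => .nd b (x + 1) y .W
  | .nd b 0 y .W => .nd b 0 y .W
  | .nd b (x + 1) y .W => .nd b x y .E
  | .nd b x y .N => .nd b x (y + 1) .S
  | .nd true x 0 .S => .v x .N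
  | .nd false x 0 .S => .v x .S
  | .nd b x (y + 1) .S => .nd b x y .N
  | .nd b x y .I => .nd b x y .O
  | .nd b x y .O => .nd b x y .I

theorem rr_rr (d : RD) : rr (rr d) = d := by
  rcases d with ⟨x, k⟩ | ⟨b, x, y, p⟩
  · cases k <;> cases x <;> rfl
  · cases p <;> cases b <;> cases x <;> cases y <;> rfl

variable (N : Net)

open Classical in
/-- the direction of the column as a Boolean value -/
noncomputable def ub (b : Bool) (x : ℕ) : Bool := decide (N.up b x)

open Classical in
/-- the direction of the row as a Boolean value -/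
noncomputable def eb (b : Bool) (y : ℕ) : Bool := decide (N.east b y)

theorem ub_true {b : Bool} {x : ℕ} : ub N b x = true ↔ N.up b x := by simp [ub]

theorem ub_false {b : Bool} {x : ℕ} : ub N b x = false ↔ ¬ N.up b x := by simp [ub]

theorem eb_true {b : Bool} {y : ℕ} : eb N b y = true ↔ N.east b y := by simp [eb]

theorem eb_false {b : Bool} {y : ℕ} : eb N b y = false ↔ ¬ N.east b y := by simp [eb]

/-- the next dart around the same point -/
noncomputable def ro : RD → RD
  | .v x k => .v x (vr k)
  | .nd b x y p => .nd b x y (nr b (ub N b x) (eb N b y) p)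

/-- the coordinates are within the bounds -/
def inb : RD → Prop
  | .v x _ => x < N.n
  | .nd _ x y _ => x < N.n ∧ y < N.M

/-- the dart is used -/
def Ur : RD → Prop
  | .v x .E => x + 1 < N.n
  | .v 0 .W => False
  | .v (x + 1) .W => x + 1 < N.n
  | .v x .N => N.ve true x 0
  | .v x .S => N.ve false x 0
  | .nd b x y .E => N.he b x y
  | .nd _ 0 _ .W => False
  | .nd b (x + 1) y .W => N.he b x y
  | .nd b x y .N => N.ve b x (y + 1)
  | .nd b x y .S => N.ve b x y
  | .nd b x y .I => ∃ e, N.In b x y e
  | .nd b x y .O => ∃ e, N.In b x y e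

theorem Ur_rr (d : RD) : Ur N (rr d) ↔ Ur N d := by
  rcases d with ⟨x, k⟩ | ⟨b, x, y, p⟩
  · cases k <;> cases x <;> exact Iff.rfl
  · cases p <;> cases b <;> cases x <;> cases y <;> exact Iff.rfl

theorem in_inb {b : Bool} {x y : ℕ} {e : NArc} (h : N.In b x y e) : x < N.n ∧ y < N.M := by
  obtain ⟨h1, h2⟩ := h
  rcases h2 with ⟨_, rfl⟩ | ⟨_, rfl⟩ | ⟨_, x', rfl, rfl⟩ | ⟨_, rfl⟩
  · exact N.ve_lt _ _ _ h1
  · have := N.ve_lt _ _ _ h1
    exact ⟨this.1, by omega⟩
  · have := N.he_lt _ _ _ h1
    exact ⟨this.1, this.2⟩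
  · have := N.he_lt _ _ _ h1
    exact ⟨by omega, this.2⟩

theorem inb_of_Ur (d : RD) (h : Ur N d) : inb N d := by
  rcases d with ⟨x, k⟩ | ⟨b, x, y, p⟩
  · cases k
    · exact lt_trans (Nat.lt_succ_self x) h
    · exact (N.ve_lt _ _ _ h).1
    · cases x
      · exact h.elim
      · exact h
    · exact (N.ve_lt _ _ _ h).1
  · cases p
    · cases x
      · exact h.elim
      · exact N.he_lt _ _ _ h
    · have := N.he_lt _ _ _ h
      exact ⟨lt_trans (Nat.lt_succ_self x) this.1, this.2⟩
    · have := N.ve_lt _ _ _ h
      exact ⟨this.1, lt_trans (Nat.lt_succ_self y) this.2⟩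
    · exact N.ve_lt _ _ _ h
    · obtain ⟨e, he⟩ := h
      exact in_inb N he
    · obtain ⟨e, he⟩ := h
      exact in_inb N he

theorem rr_ne (d : RD) (h : Ur N d) : rr d ≠ d := by
  rcases d with ⟨x, k⟩ | ⟨b, x, y, p⟩
  · cases k <;> cases x <;> first | exact h.elim | simp [rr]
  · cases p <;> cases b <;> cases x <;> cases y <;> first | exact h.elim | simp [rr]

theorem inb_ro (d : RD) : inb N (ro N d) ↔ inb N d := by
  rcases d with ⟨x, k⟩ | ⟨b, x, y, p⟩ <;> exact Iff.rfl

/-- the rotation as a permutation -/
noncomputable def roP : Perm RD where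
  toFun := ro N
  invFun d := ro N (ro N (match d with
    | .v x k => .v x (vr k)
    | .nd b x y p => .nd b x y p))
  left_inv d := by
    rcases d with ⟨x, k⟩ | ⟨b, x, y, p⟩
    · simp [ro, vr_four]
    · simp [ro, nr_cube]
  right_inv d := by
    rcases d with ⟨x, k⟩ | ⟨b, x, y, p⟩
    · simp [ro, vr_four]
    · simp [ro, nr_cube]

/-- the type of darts -/
abbrev DD : Type := {d : RD // inb N d}

theorem finDD : Finite (DD N) := by
  let f : (Fin N.n × VPort) ⊕ (Bool × Fin N.n × Fin N.M × Port) → DD N := fun
    | .inl (x, k) => ⟨.v x k, x.2⟩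
    | .inr (b, x, y, p) => ⟨.nd b x y p, ⟨x.2, y.2⟩⟩
  refine Finite.of_surjective f ?_
  rintro ⟨⟨x, k⟩ | ⟨b, x, y, p⟩, h⟩
  · exact ⟨.inl (⟨x, h⟩, k), rfl⟩
  · exact ⟨.inr (b, ⟨x, h.1⟩, ⟨y, h.2⟩, p), rfl⟩

/-- the rotation -/
noncomputable def rot : Perm (DD N) := (roP N).subtypePerm fun d => (inb_ro N d)

open Classical in
/-- the other end, within the bounds -/
noncomputable def rv (d : DD N) : DD N := if h : inb N (rr d.1) then ⟨rr d.1, h⟩ else d

theorem rv_rv (d : DD N) : rv N (rv N d) = d := by
  unfold rv
  by_cases h : inb N (rr d.1)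
  · simp only [h, dif_pos, rr_rr, d.2]
  · simp only [h, dif_neg, not_false_eq_true]

/-- the involution -/
noncomputable def rev : Perm (DD N) := Function.Involutive.toPerm (rv N) (rv_rv N)

theorem rev_val {d : DD N} (h : Ur N d.1) : (rev N d).1 = rr d.1 := by
  have : inb N (rr d.1) := inb_of_Ur N _ ((Ur_rr N d.1).2 h)
  change (rv N d).1 = _
  simp [rv, this]

/-- the place or the vertex of a dart -/
noncomputable def bs : DD N → Fin N.n ⊕ (Bool × Fin N.n × Fin N.M × Bool)
  | ⟨.v x _, h⟩ => .inl ⟨x, h⟩
  | ⟨.nd b x y p, h⟩ => .inr (b, ⟨x, h.1⟩, ⟨y, h.2⟩, isIn (ub N b x) (eb N b y) p)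

theorem rot_val (d : DD N) : (rot N d).1 = ro N d.1 := rfl

theorem bs_rot (d : DD N) : bs N (rot N d) = bs N d := by
  rcases d with ⟨⟨x, k⟩ | ⟨b, x, y, p⟩, h⟩
  · rfl
  · change Sum.inr (b, _, _, isIn _ _ (nr _ _ _ p)) = Sum.inr (b, _, _, isIn _ _ p)
    rw [isIn_nr]

theorem sameCycle_iff (d e : DD N) : (rot N).SameCycle d e ↔ bs N d = bs N e := by
  constructor
  · rintro ⟨i, rfl⟩
    have key : ∀ (n : ℕ) (d : DD N), bs N ((rot N ^ n) d) = bs N d := by
      intro n
      induction n with
      | zero => intro d; rfl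
      | succ n ih =>
        intro d
        rw [pow_succ', Perm.mul_apply, bs_rot, ih]
    cases i with
    | ofNat n => exact (key n d).symm
    | negSucc n =>
      have h1 := key (n + 1) ((rot N ^ (Int.negSucc n)) d)
      have h2 : (rot N ^ (n + 1)) ((rot N ^ (Int.negSucc n)) d) = d := by
        rw [zpow_negSucc]
        exact Equiv.apply_symm_apply _ _
      rw [h2] at h1
      exact h1
  · intro h
    have s1 : ∀ d : DD N, (rot N).SameCycle d (rot N d) := fun d => ⟨1, by simp⟩
    rcases d with ⟨⟨x, k⟩ | ⟨b, x, y, p⟩, hd⟩ <;> rcases e with ⟨⟨x', k'⟩ | ⟨b', x', y', p'⟩, he⟩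
    · have h' : x = x' := congrArg Fin.val (Sum.inl.inj h)
      subst h'
      rcases vr_orbit k k' with rfl | rfl | rfl | rfl
      · exact Perm.SameCycle.refl _ _
      · exact s1 _
      · exact (s1 _).trans (s1 _)
      · exact ((s1 _).trans (s1 _)).trans (s1 _)
    · simp [bs] at h
    · simp [bs] at h
    · have h0 := Sum.inr.inj h
      have h1 : b = b' := congrArg (fun q => q.1) h0
      have h2 : x = x' := congrArg (fun q => q.2.1.val) h0
      have h3 : y = y' := congrArg (fun q => q.2.2.1.val) h0
      have h := congrArg (fun q => q.2.2.2) h0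
      subst h1 h2 h3
      rcases nr_orbit b _ _ _ _ h with rfl | rfl | rfl
      · exact Perm.SameCycle.refl _ _
      · exact s1 _
      · exact (s1 _).trans (s1 _)

end Pool.Agent.Helper91.SCNet
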