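import Pool.Agent.Helper91.SC.NetA

/-!
# Networks on a grid have drawings, part B: potentials
-/

set_option autoImplicit false
set_option maxHeartbeats 4000000

namespace Pool.Agent.Helper91.SCNet

open Pool.Agent.Helper99.SC Equiv

/-- colour of the face to the left of the dart at a port; `a`, `b`, `c`, `d` are the colours of the
corners SW, SE, NW, NE -/
def col (a b c d : ZMod 2) : Bool → Bool → Bool → Port → ZMod 2
  | true, _, _, .N => c
  | true, _, _, .S => b
  | true, _, _, .E => d
  | true, _, _, .W => a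
  | true, true, true, .I => c
  | true, true, false, .I => a
  | true, false, true, .I => d
  | true, false, false, .I => b
  | true, true, true, .O => b
  | true, true, false, .O => d
  | true, false, true, .O => a
  | true, false, false, .O => c
  | false, _, _, .N => d
  | false, _, _, .S => a
  | false, _, _, .E => b
  | false, _, _, .W => c
  | false, true, true, .I => b
  | false, true, false, .I => d
  | false, false, true, .I => a
  | false, false, false, .I => c
  | false, true, true, .O => c
  | false, true, false, .O => a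
  | false, false, true, .O => d
  | false, false, false, .O => b

/-- the values of a chain at the ports -/
def zz (a b c d : ZMod 2) (u e : Bool) : Port → ZMod 2
  | .N => c + d
  | .S => a + b
  | .E => b + d
  | .W => a + c
  | .I => (bif u then a + b else c + d) + (bif e then a + c else b + d)
  | .O => (bif u then a + b else c + d) + (bif e then a + c else b + d)

theorem col_nr : ∀ (s u e : Bool) (p : Port) (a b c d : ZMod 2),
    col a b c d s u e (nr s u e p) = col a b c d s u e p + zz a b c d u e (nr s u e p) := by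
  decide

theorem col_IO : ∀ (s u e : Bool) (a b c d : ZMod 2),
    col a b c d s u e .O = col a b c d s u e .I + zz a b c d u e .I := by
  decide

theorem z_in (z g : Port → ZMod 2) (s u e : Bool)
    (h : ∀ p, g (nr s u e p) = g p + z (nr s u e p)) :
    z .I = z (bif u then .S else .N) + z (bif e then .W else .E) := by
  have h1 := h .I
  have h2 := h (nr s u e .I)
  have h3 := h (nr s u e (nr s u e .I))
  rw [nr_cube] at h3
  have h0 : (2 : ZMod 2) = 0 := rfl
  cases s <;> cases u <;> cases e <;> simp [nr, nr0] at h1 h2 h3 ⊢ <;>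
    linear_combination h1 + h2 + h3 + z .I * h0

theorem z_out (z g : Port → ZMod 2) (s u e : Bool)
    (h : ∀ p, g (nr s u e p) = g p + z (nr s u e p)) :
    z .O = z (bif u then .N else .S) + z (bif e then .E else .W) := by
  have h1 := h .O
  have h2 := h (nr s u e .O)
  have h3 := h (nr s u e (nr s u e .O))
  rw [nr_cube] at h3
  have h0 : (2 : ZMod 2) = 0 := rfl
  cases s <;> cases u <;> cases e <;> simp [nr, nr0] at h1 h2 h3 ⊢ <;>
    linear_combination h1 + h2 + h3 + z .O * h0

variable (N : Net)

open Classical in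
/-- extension by zero -/
noncomputable def zx (z : DD N → ZMod 2) (d : RD) : ZMod 2 := if h : inb N d then z ⟨d, h⟩ else 0

section

variable {N} {z : DD N → ZMod 2} (hz : ∀ d : DD N, ¬ Ur N d.1 → z d = 0)
  (hrev : ∀ d, z (rev N d) = z d)

include hz in
theorem zx_unused {d : RD} (h : ¬ Ur N d) : zx N z d = 0 := by
  unfold zx
  split
  · exact hz _ h
  · rfl

include hz hrev in
theorem zx_rr (d : RD) : zx N z (rr d) = zx N z d := by
  by_cases h : Ur N d
  · have h1 := inb_of_Ur N d h
    have h2 := inb_of_Ur N _ ((Ur_rr N d).2 h)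
    have h3 := hrev ⟨d, h1⟩
    have h4 : rev N ⟨d, h1⟩ = ⟨rr d, h2⟩ := Subtype.ext (rev_val N h)
    rw [h4] at h3
    simp only [zx, h1, h2, dif_pos]
    exact h3
  · rw [zx_unused hz h, zx_unused hz (fun h' => h ((Ur_rr N d).1 h'))]

theorem two_zero : (2 : ZMod 2) = 0 := rfl

theorem node_in {g : DD N → ZMod 2} (hg : ∀ d, g (rot N d) = g d + z (rot N d)) (b : Bool)
    (x y : ℕ) : zx N z (.nd b x y .I) = zx N z (.nd b x y (bif ub N b x then .S else .N)) +
      zx N z (.nd b x y (bif eb N b y then .W else .E)) := by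
  by_cases h : x < N.n ∧ y < N.M
  · have hp : ∀ p, zx N z (.nd b x y p) = z ⟨.nd b x y p, h⟩ := fun p => dif_pos (c := inb N (.nd b x y p)) h
    simp only [hp]
    exact z_in (fun p => z ⟨.nd b x y p, h⟩) (fun p => g ⟨.nd b x y p, h⟩) b (ub N b x) (eb N b y)
      fun p => hg ⟨.nd b x y p, h⟩
  · have hp : ∀ p, zx N z (.nd b x y p) = 0 := fun p => dif_neg (c := inb N (.nd b x y p)) h
    simp [hp]

theorem node_out {g : DD N → ZMod 2} (hg : ∀ d, g (rot N d) = g d + z (rot N d)) (b : Bool)
    (x y : ℕ) : zx N z (.nd b x y .O) = zx N z (.nd b x y (bif ub N b x then .N else .S)) +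
      zx N z (.nd b x y (bif eb N b y then .E else .W)) := by
  by_cases h : x < N.n ∧ y < N.M
  · have hp : ∀ p, zx N z (.nd b x y p) = z ⟨.nd b x y p, h⟩ := fun p => dif_pos (c := inb N (.nd b x y p)) h
    simp only [hp]
    exact z_out (fun p => z ⟨.nd b x y p, h⟩) (fun p => g ⟨.nd b x y p, h⟩) b (ub N b x) (eb N b y)
      fun p => hg ⟨.nd b x y p, h⟩
  · have hp : ∀ p, zx N z (.nd b x y p) = 0 := fun p => dif_neg (c := inb N (.nd b x y p)) h
    simp [hp]

include hz hrev in
theorem node_sum {g : DD N → ZMod 2} (hg : ∀ d, g (rot N d) = g d + z (rot N d)) (b : Bool)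
    (x y : ℕ) : zx N z (.nd b x y .W) + zx N z (.nd b x y .N) + zx N z (.nd b x y .S) =
      zx N z (.nd b x y .E) := by
  have h1 := node_in hg b x y
  have h2 := node_out hg b x y
  have h3 : zx N z (.nd b x y .O) = zx N z (.nd b x y .I) := zx_rr hz hrev (.nd b x y .I)
  rw [h3, h1] at h2
  clear h1 h3 hg g hz hrev
  generalize ub N b x = u at h2
  generalize eb N b y = v at h2
  cases u <;> cases v <;> simp only [cond_true, cond_false] at h2 <;>
    generalize zx N z (.nd b x y .W) = w at * <;>
    generalize zx N z (.nd b x y .E) = e at * <;>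
    generalize zx N z (.nd b x y .N) = n at * <;>
    generalize zx N z (.nd b x y .S) = s at * <;> revert w e n s <;> decide

theorem vert_sum {g : DD N → ZMod 2} (hg : ∀ d, g (rot N d) = g d + z (rot N d)) (x : ℕ) :
    zx N z (.v x .W) + zx N z (.v x .N) + zx N z (.v x .S) = zx N z (.v x .E) := by
  by_cases h : x < N.n
  · have hp : ∀ p, zx N z (.v x p) = z ⟨.v x p, h⟩ := fun p => dif_pos (c := inb N (.v x p)) h
    simp only [hp]
    have h1 := hg ⟨.v x .E, h⟩
    have h2 := hg ⟨.v x .N, h⟩
    have h3 := hg ⟨.v x .W, h⟩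
    have h4 := hg ⟨.v x .S, h⟩
    change g ⟨.v x .N, h⟩ = g ⟨.v x .E, h⟩ + z ⟨.v x .N, h⟩ at h1
    change g ⟨.v x .W, h⟩ = g ⟨.v x .N, h⟩ + z ⟨.v x .W, h⟩ at h2
    change g ⟨.v x .S, h⟩ = g ⟨.v x .W, h⟩ + z ⟨.v x .S, h⟩ at h3
    change g ⟨.v x .E, h⟩ = g ⟨.v x .S, h⟩ + z ⟨.v x .E, h⟩ at h4
    linear_combination -(h1 + h2 + h3 + h4) - z ⟨.v x .E, h⟩ * two_zero
  · have hp : ∀ p, zx N z (.v x p) = 0 := fun p => dif_neg (c := inb N (.v x p)) h
    simp [hp]

variable (N z) in
/-- the colours of the corners: sums along a row -/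
noncomputable def cc (b : Bool) (x y : ℕ) : ZMod 2 :=
  ∑ x' ∈ Finset.range x, zx N z (.nd b x' y .S)

theorem cc_succ (b : Bool) (x y : ℕ) :
    cc N z b (x + 1) y = cc N z b x y + zx N z (.nd b x y .S) := by
  simp [cc, Finset.sum_range_succ]

include hz hrev in
theorem cc_up {g : DD N → ZMod 2} (hg : ∀ d, g (rot N d) = g d + z (rot N d)) (b : Bool)
    (x y : ℕ) : cc N z b x (y + 1) = cc N z b x y + zx N z (.nd b x y .W) := by
  induction x with
  | zero =>
    have : zx N z (.nd b 0 y .W) = 0 := zx_unused hz (fun h => h)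
    simp [cc, this]
  | succ x ih =>
    rw [cc_succ, cc_succ, ih]
    have h1 := node_sum hz hrev hg b x y
    have h2 : zx N z (.nd b x (y + 1) .S) = zx N z (.nd b x y .N) :=
      zx_rr hz hrev (.nd b x y .N)
    have h3 : zx N z (.nd b (x + 1) y .W) = zx N z (.nd b x y .E) :=
      zx_rr hz hrev (.nd b x y .E)
    rw [h2, h3]
    linear_combination h1 - zx N z (.nd b x y .S) * two_zero

include hz hrev in
theorem cc_row {g : DD N → ZMod 2} (hg : ∀ d, g (rot N d) = g d + z (rot N d)) (x : ℕ) :
    cc N z false x 0 = cc N z true x 0 + zx N z (.v x .W) := by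
  induction x with
  | zero =>
    have : zx N z (.v 0 .W) = 0 := zx_unused hz (fun h => h)
    simp [cc, this]
  | succ x ih =>
    rw [cc_succ, cc_succ, ih]
    have h1 := vert_sum hg x
    have h2 : zx N z (.nd true x 0 .S) = zx N z (.v x .N) := zx_rr hz hrev (.v x .N)
    have h3 : zx N z (.v (x + 1) .W) = zx N z (.v x .E) := zx_rr hz hrev (.v x .E)
    have h4 : zx N z (.nd false x 0 .S) = zx N z (.v x .S) := zx_rr hz hrev (.v x .S)
    rw [h2, h3, h4]
    linear_combination h1 - zx N z (.v x .N) * two_zero

variable (N z) in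
/-- the potential -/
noncomputable def ch : RD → ZMod 2
  | .v x .E => cc N z true (x + 1) 0
  | .v x .N => cc N z true x 0
  | .v x .W => cc N z false x 0
  | .v x .S => cc N z false (x + 1) 0
  | .nd b x y p => col (cc N z b x y) (cc N z b (x + 1) y) (cc N z b x (y + 1))
      (cc N z b (x + 1) (y + 1)) b (ub N b x) (eb N b y) p

include hz hrev in
/-- the values of the chain at a node are given by the colours of the corners -/
theorem zx_nd {g : DD N → ZMod 2} (hg : ∀ d, g (rot N d) = g d + z (rot N d)) (b : Bool)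
    (x y : ℕ) (p : Port) : zx N z (.nd b x y p) = zz (cc N z b x y) (cc N z b (x + 1) y)
      (cc N z b x (y + 1)) (cc N z b (x + 1) (y + 1)) (ub N b x) (eb N b y) p := by
  have hS : zx N z (.nd b x y .S) = cc N z b x y + cc N z b (x + 1) y := by
    rw [cc_succ]
    linear_combination - cc N z b x y * two_zero
  have hN : zx N z (.nd b x y .N) = cc N z b x (y + 1) + cc N z b (x + 1) (y + 1) := by
    have h2 : zx N z (.nd b x (y + 1) .S) = zx N z (.nd b x y .N) :=
      zx_rr hz hrev (.nd b x y .N)
    rw [cc_succ, h2]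
    linear_combination - cc N z b x (y + 1) * two_zero
  have hW : zx N z (.nd b x y .W) = cc N z b x y + cc N z b x (y + 1) := by
    rw [cc_up hz hrev hg]
    linear_combination - cc N z b x y * two_zero
  have hE : zx N z (.nd b x y .E) = cc N z b (x + 1) y + cc N z b (x + 1) (y + 1) := by
    have h3 : zx N z (.nd b (x + 1) y .W) = zx N z (.nd b x y .E) :=
      zx_rr hz hrev (.nd b x y .E)
    rw [cc_up hz hrev hg, h3]
    linear_combination - cc N z b (x + 1) y * two_zero
  have hI : zx N z (.nd b x y .I) = (bif ub N b x then cc N z b x y + cc N z b (x + 1) y else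
      cc N z b x (y + 1) + cc N z b (x + 1) (y + 1)) + (bif eb N b y then
      cc N z b x y + cc N z b x (y + 1) else cc N z b (x + 1) y + cc N z b (x + 1) (y + 1)) := by
    rw [node_in hg]
    cases ub N b x <;> cases eb N b y <;> simp only [cond_true, cond_false, hS, hN, hW, hE]
  have hO : zx N z (.nd b x y .O) = zx N z (.nd b x y .I) := zx_rr hz hrev (.nd b x y .I)
  cases p
  · exact hW
  · exact hE
  · exact hN
  · exact hS
  · exact hI
  · exact hO.trans hI

include hz hrev in
theorem ch_ro {g : DD N → ZMod 2} (hg : ∀ d, g (rot N d) = g d + z (rot N d)) (d : RD) :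
    ch N z (ro N d) = ch N z d + zx N z (ro N d) := by
  rcases d with ⟨x, k⟩ | ⟨b, x, y, p⟩
  · have h1 : zx N z (.nd true x 0 .S) = zx N z (.v x .N) := zx_rr hz hrev (.v x .N)
    have h2 : zx N z (.nd false x 0 .S) = zx N z (.v x .S) := zx_rr hz hrev (.v x .S)
    have h3 : zx N z (.v (x + 1) .W) = zx N z (.v x .E) := zx_rr hz hrev (.v x .E)
    have h4 := cc_row hz hrev hg x
    have h5 := cc_row hz hrev hg (x + 1)
    have h6 := cc_succ (N := N) (z := z) true x 0
    have h7 := cc_succ (N := N) (z := z) false x 0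
    cases k
    · change cc N z true x 0 = cc N z true (x + 1) 0 + zx N z (.v x .N)
      rw [h6, h1]
      linear_combination - zx N z (.v x .N) * two_zero
    · exact h4
    · change cc N z false (x + 1) 0 = cc N z false x 0 + zx N z (.v x .S)
      rw [h7, h2]
    · change cc N z true (x + 1) 0 = cc N z false (x + 1) 0 + zx N z (.v x .E)
      rw [h5, h3]
      linear_combination - zx N z (.v x .E) * two_zero
  · have h := zx_nd hz hrev hg b x y (nr b (ub N b x) (eb N b y) p)
    change col _ _ _ _ _ _ _ _ = col _ _ _ _ _ _ _ _ + zx N z (.nd b x y _)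
    rw [h, col_nr]

include hz hrev in
theorem ch_rr {g : DD N → ZMod 2} (hg : ∀ d, g (rot N d) = g d + z (rot N d)) (d : RD)
    (hd : Ur N d) : ch N z (rr d) = ch N z d + zx N z d := by
  have key : ∀ e : RD, ch N z (rr e) = ch N z e + zx N z e →
      ch N z (rr (rr e)) = ch N z (rr e) + zx N z (rr e) := by
    intro e he
    rw [rr_rr, he, zx_rr hz hrev]
    linear_combination - zx N z e * two_zero
  have hvE : ∀ x, ch N z (rr (.v x .E)) = ch N z (.v x .E) + zx N z (.v x .E) := by
    intro x
    have h3 : zx N z (.v (x + 1) .W) = zx N z (.v x .E) := zx_rr hz hrev (.v x .E)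
    change cc N z false (x + 1) 0 = cc N z true (x + 1) 0 + zx N z (.v x .E)
    rw [cc_row hz hrev hg, h3]
  have hvN : ∀ x, ch N z (rr (.v x .N)) = ch N z (.v x .N) + zx N z (.v x .N) := by
    intro x
    have h1 : zx N z (.nd true x 0 .S) = zx N z (.v x .N) := zx_rr hz hrev (.v x .N)
    change cc N z true (x + 1) 0 = cc N z true x 0 + zx N z (.v x .N)
    rw [cc_succ, h1]
  have hvS : ∀ x, ch N z (rr (.v x .S)) = ch N z (.v x .S) + zx N z (.v x .S) := by
    intro x
    have h1 : zx N z (.nd false x 0 .S) = zx N z (.v x .S) := zx_rr hz hrev (.v x .S)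
    change cc N z false x 0 = cc N z false (x + 1) 0 + zx N z (.v x .S)
    rw [cc_succ, h1]
    linear_combination - zx N z (.v x .S) * two_zero
  have hE : ∀ b x y, ch N z (rr (.nd b x y .E)) = ch N z (.nd b x y .E) +
      zx N z (.nd b x y .E) := by
    intro b x y
    have h3 : zx N z (.nd b (x + 1) y .W) = zx N z (.nd b x y .E) :=
      zx_rr hz hrev (.nd b x y .E)
    have h4 := cc_up hz hrev hg b (x + 1) y
    cases b
    · change cc N z false (x + 1) (y + 1) = cc N z false (x + 1) y + zx N z (.nd false x y .E)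
      rw [h4, h3]
    · change cc N z true (x + 1) y = cc N z true (x + 1) (y + 1) + zx N z (.nd true x y .E)
      rw [h4, h3]
      linear_combination - zx N z (.nd true x y .E) * two_zero
  have hN : ∀ b x y, ch N z (rr (.nd b x y .N)) = ch N z (.nd b x y .N) +
      zx N z (.nd b x y .N) := by
    intro b x y
    have h3 : zx N z (.nd b x (y + 1) .S) = zx N z (.nd b x y .N) :=
      zx_rr hz hrev (.nd b x y .N)
    have h4 := cc_succ (N := N) (z := z) b x (y + 1)
    cases b
    · change cc N z false x (y + 1) = cc N z false (x + 1) (y + 1) + zx N z (.nd false x y .N)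
      rw [h4, h3]
      linear_combination - zx N z (.nd false x y .N) * two_zero
    · change cc N z true (x + 1) (y + 1) = cc N z true x (y + 1) + zx N z (.nd true x y .N)
      rw [h4, h3]
  have hI : ∀ b x y, ch N z (rr (.nd b x y .I)) = ch N z (.nd b x y .I) +
      zx N z (.nd b x y .I) := by
    intro b x y
    rw [zx_nd hz hrev hg]
    exact col_IO _ _ _ _ _ _ _
  rcases d with ⟨x, k⟩ | ⟨b, x, y, p⟩
  · cases k
    · exact hvE x
    · exact hvN x
    · cases x with
      | zero => exact hd.elim
      | succ x => exact key (.v x .E) (hvE x)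
    · exact hvS x
  · cases p
    · cases x with
      | zero => exact hd.elim
      | succ x => exact key (.nd b x y .E) (hE b x y)
    · exact hE b x y
    · exact hN b x y
    · cases y with
      | zero =>
        cases b
        · exact key (.v x .S) (hvS x)
        · exact key (.v x .N) (hvN x)
      | succ y =>
        have := key (.nd b x y .N) (hN b x y)
        cases b <;> exact this
    · exact hI b x y
    · exact key (.nd b x y .I) (hI b x y)

end

theorem flux (z : DD N → ZMod 2) (hz : ∀ d : DD N, ¬ Ur N d.1 → z d = 0)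
    (hrev : ∀ d, z (rev N d) = z d) (hg : ∃ g : DD N → ZMod 2, ∀ d, g (rot N d) = g d + z (rot N d)) :
    ∃ χ : DD N → ZMod 2, (∀ d : DD N, Ur N d.1 → χ (rev N d) = χ d + z d) ∧
      ∀ d, χ (rot N d) = χ d + z (rot N d) := by
  obtain ⟨g, hg⟩ := hg
  have hx : ∀ d : DD N, zx N z d.1 = z d := fun d => dif_pos d.2
  refine ⟨fun d => ch N z d.1, ?_, ?_⟩
  · intro d hd
    have h := ch_rr hz hrev hg d.1 hd
    rw [hx] at h
    change ch N z (rev N d).1 = _
    rw [rev_val N hd]
    exact h
  · intro d
    have h := ch_ro hz hrev hg d.1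
    rw [← hx (rot N d)]
    exact h

end Pool.Agent.Helper91.SCNet
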