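import Pool.Agent.Helper91.SC.NetB

/-!
# Networks on a grid have drawings, part C: smooth walks, and the result
-/

set_option autoImplicit false
set_option maxHeartbeats 4000000

namespace Pool.Agent.Helper91.SCNet

open Pool.Agent.Helper99.SC Equiv Relation

/-! ### degrees -/

/-- the stem of a place -/
def st (t : Bool) : Port := bif t then .I else .O

/-- the vertical port of a place -/
def vp (u t : Bool) : Port := bif (u == t) then .S else .N

/-- the horizontal port of a place -/
def hp (e t : Bool) : Port := bif (e == t) then .W else .E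

theorem ports : ∀ u e t q, isIn u e q = t ↔ q = st t ∨ q = vp u t ∨ q = hp e t := by decide

theorem st_ne_vp : ∀ u t, st t ≠ vp u t := by decide

theorem st_ne_hp : ∀ e t, st t ≠ hp e t := by decide

theorem vp_ne_hp : ∀ u e t, vp u t ≠ hp e t := by decide

theorem card_ports (u e t : Bool) (W : Port → Prop) (h : W (st t) ↔ W (vp u t) ∨ W (hp e t)) :
    Nat.card {q // isIn u e q = t ∧ W q} = 0 ∨ Nat.card {q // isIn u e q = t ∧ W q} = 2 ∨
      Nat.card {q // isIn u e q = t ∧ W q} = 3 := by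
  change Set.ncard {q | isIn u e q = t ∧ W q} = 0 ∨ Set.ncard {q | isIn u e q = t ∧ W q} = 2 ∨
    Set.ncard {q | isIn u e q = t ∧ W q} = 3
  by_cases h1 : W (vp u t)
  · by_cases h2 : W (hp e t)
    · right; right
      rw [Set.ncard_eq_three]
      refine ⟨st t, vp u t, hp e t, st_ne_vp u t, st_ne_hp e t, vp_ne_hp u e t, ?_⟩
      ext q
      simp only [Set.mem_ofPred_eq, ports, Set.mem_insert_iff, Set.mem_singleton_iff]
      constructor
      · exact fun h => h.1
      · intro hq
        refine ⟨hq, ?_⟩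
        rcases hq with rfl | rfl | rfl
        · exact h.2 (.inl h1)
        · exact h1
        · exact h2
    · right; left
      have : {q | isIn u e q = t ∧ W q} = {st t, vp u t} := by
        ext q
        simp only [Set.mem_ofPred_eq, ports, Set.mem_insert_iff, Set.mem_singleton_iff]
        constructor
        · rintro ⟨rfl | rfl | rfl, hq⟩
          · exact .inl rfl
          · exact .inr rfl
          · exact (h2 hq).elim
        · rintro (rfl | rfl)
          · exact ⟨.inl rfl, h.2 (.inl h1)⟩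
          · exact ⟨.inr (.inl rfl), h1⟩
      rw [this, Set.ncard_pair (st_ne_vp u t)]
  · by_cases h2 : W (hp e t)
    · right; left
      have : {q | isIn u e q = t ∧ W q} = {st t, hp e t} := by
        ext q
        simp only [Set.mem_ofPred_eq, ports, Set.mem_insert_iff, Set.mem_singleton_iff]
        constructor
        · rintro ⟨rfl | rfl | rfl, hq⟩
          · exact .inl rfl
          · exact (h1 hq).elim
          · exact .inr rfl
        · rintro (rfl | rfl)
          · exact ⟨.inl rfl, h.2 (.inr h2)⟩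
          · exact ⟨.inr (.inr rfl), h2⟩
      rw [this, Set.ncard_pair (st_ne_hp e t)]
    · left
      have : {q | isIn u e q = t ∧ W q} = ∅ := by
        ext q
        simp only [Set.mem_ofPred_eq, ports, Set.mem_empty_iff_false, iff_false]
        rintro ⟨rfl | rfl | rfl, hq⟩
        · rcases h.1 hq with hq | hq
          · exact h1 hq
          · exact h2 hq
        · exact h1 hq
        · exact h2 hq
      rw [this, Set.ncard_empty]

variable (N : Net)

theorem in_iff (b : Bool) (x y : ℕ) : (∃ e, N.In b x y e) ↔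
    Ur N (.nd b x y (vp (ub N b x) true)) ∨ Ur N (.nd b x y (hp (eb N b y) true)) := by
  constructor
  · rintro ⟨e, h1, h2⟩
    rcases h2 with ⟨h2, rfl⟩ | ⟨h2, rfl⟩ | ⟨h2, x', rfl, rfl⟩ | ⟨h2, rfl⟩
    · left
      rw [(ub_true N).2 h2]
      exact h1
    · left
      rw [(ub_false N).2 h2]
      exact h1
    · right
      rw [(eb_true N).2 h2]
      exact h1
    · right
      rw [(eb_false N).2 h2]
      exact h1
  · rintro (h | h)
    · by_cases h2 : N.up b x
      · rw [(ub_true N).2 h2] at h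
        exact ⟨.inl (b, x, y), h, .inl ⟨h2, rfl⟩⟩
      · rw [(ub_false N).2 h2] at h
        exact ⟨.inl (b, x, y + 1), h, .inr (.inl ⟨h2, rfl⟩)⟩
    · by_cases h2 : N.east b y
      · rw [(eb_true N).2 h2] at h
        cases x with
        | zero => exact h.elim
        | succ x => exact ⟨.inr (b, x, y), h, .inr (.inr (.inl ⟨h2, x, rfl, rfl⟩))⟩
      · rw [(eb_false N).2 h2] at h
        exact ⟨.inr (b, x, y), h, .inr (.inr (.inr ⟨h2, rfl⟩))⟩

theorem out_iff (b : Bool) (x y : ℕ) : (∃ e, N.Out b x y e) ↔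
    Ur N (.nd b x y (vp (ub N b x) false)) ∨ Ur N (.nd b x y (hp (eb N b y) false)) := by
  constructor
  · rintro ⟨e, h1, h2⟩
    rcases h2 with ⟨h2, rfl⟩ | ⟨h2, rfl⟩ | ⟨h2, rfl⟩ | ⟨h2, x', rfl, rfl⟩
    · left
      rw [(ub_true N).2 h2]
      exact h1
    · left
      rw [(ub_false N).2 h2]
      exact h1
    · right
      rw [(eb_true N).2 h2]
      exact h1
    · right
      rw [(eb_false N).2 h2]
      exact h1
  · rintro (h | h)
    · by_cases h2 : N.up b x
      · rw [(ub_true N).2 h2] at h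
        exact ⟨.inl (b, x, y + 1), h, .inl ⟨h2, rfl⟩⟩
      · rw [(ub_false N).2 h2] at h
        exact ⟨.inl (b, x, y), h, .inr (.inl ⟨h2, rfl⟩)⟩
    · by_cases h2 : N.east b y
      · rw [(eb_true N).2 h2] at h
        exact ⟨.inr (b, x, y), h, .inr (.inr (.inl ⟨h2, rfl⟩))⟩
      · rw [(eb_false N).2 h2] at h
        cases x with
        | zero => exact h.elim
        | succ x => exact ⟨.inr (b, x, y), h, .inr (.inr (.inr ⟨h2, x, rfl, rfl⟩))⟩

theorem stem_iff (hN : N.Balanced) (b : Bool) (x y : ℕ) (t : Bool) : Ur N (.nd b x y (st t)) ↔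
    Ur N (.nd b x y (vp (ub N b x) t)) ∨ Ur N (.nd b x y (hp (eb N b y) t)) := by
  cases t
  · exact (hN b x y).trans (out_iff N b x y)
  · exact in_iff N b x y

/-- the type of places -/
abbrev PP : Type := Bool × Fin N.n × Fin N.M × Bool

/-- the stem of a place -/
def stem (p : PP N) : DD N := ⟨.nd p.1 p.2.1 p.2.2.1 (st p.2.2.2), ⟨p.2.1.2, p.2.2.1.2⟩⟩

theorem bs_iff (d : DD N) (p : PP N) : bs N d = Sum.inr p ↔
    ∃ q, d.1 = .nd p.1 p.2.1 p.2.2.1 q ∧ isIn (ub N p.1 p.2.1) (eb N p.1 p.2.2.1) q = p.2.2.2 := by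
  rcases d with ⟨⟨x, k⟩ | ⟨b, x, y, q⟩, hd⟩
  · simp [bs]
  · rcases p with ⟨b', ⟨x', hx⟩, ⟨y', hy⟩, t⟩
    constructor
    · intro h
      have h0 := Sum.inr.inj h
      have h1 : b = b' := congrArg (fun q => q.1) h0
      have h2 : x = x' := congrArg (fun q => q.2.1.val) h0
      have h3 : y = y' := congrArg (fun q => q.2.2.1.val) h0
      have h4 := congrArg (fun q => q.2.2.2) h0
      subst h1 h2 h3
      exact ⟨q, rfl, h4⟩
    · rintro ⟨q', h1, h2⟩
      injection h1 with h1 h3 h4 h5
      subst h1 h5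
      have h3' : x = x' := h3
      have h4' : y = y' := h4
      subst h3' h4'
      have h2' : isIn (ub N b x) (eb N b y) q = t := h2
      subst h2'
      rfl

theorem base_stem (p : PP N) : bs N (stem N p) = Sum.inr p := by
  rw [bs_iff]
  refine ⟨st p.2.2.2, rfl, ?_⟩
  rw [ports]
  exact .inl rfl

theorem stem_U (hN : N.Balanced) (d : DD N) (p : PP N) (hd : bs N d = Sum.inr p)
    (hU : Ur N d.1) : Ur N (stem N p).1 := by
  obtain ⟨q, h1, h2⟩ := (bs_iff N d p).1 hd
  rw [h1] at hU
  rw [ports] at h2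
  rcases h2 with rfl | rfl | rfl
  · exact hU
  · exact (stem_iff N hN _ _ _ _).2 (.inl hU)
  · exact (stem_iff N hN _ _ _ _).2 (.inr hU)

theorem degree (hN : N.Balanced) (p : PP N) :
    Nat.card {d : DD N // bs N d = Sum.inr p ∧ Ur N d.1} = 0 ∨
    Nat.card {d : DD N // bs N d = Sum.inr p ∧ Ur N d.1} = 2 ∨
    Nat.card {d : DD N // bs N d = Sum.inr p ∧ Ur N d.1} = 3 := by
  have key := card_ports (ub N p.1 p.2.1) (eb N p.1 p.2.2.1) p.2.2.2
    (fun q => Ur N (.nd p.1 p.2.1 p.2.2.1 q)) (stem_iff N hN _ _ _ _)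
  have hc : Nat.card {d : DD N // bs N d = Sum.inr p ∧ Ur N d.1} =
      Nat.card {q // isIn (ub N p.1 p.2.1) (eb N p.1 p.2.2.1) q = p.2.2.2 ∧
        Ur N (.nd p.1 p.2.1 p.2.2.1 q)} := by
    symm
    refine Nat.card_congr (Equiv.ofBijective (fun q => ⟨⟨.nd p.1 p.2.1 p.2.2.1 q.1,
      ⟨p.2.1.2, p.2.2.1.2⟩⟩, (bs_iff N _ p).2 ⟨q.1, rfl, q.2.1⟩, q.2.2⟩) ⟨?_, ?_⟩)
    · rintro ⟨q, hq⟩ ⟨q', hq'⟩ h
      have h1 := congrArg (fun d => d.1.1) h
      simp only [RD.nd.injEq, true_and] at h1
      exact Subtype.ext h1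
    · rintro ⟨⟨d, hd⟩, h1, h2⟩
      obtain ⟨q, h3, h4⟩ := (bs_iff N _ p).1 h1
      simp only at h3
      subst h3
      exact ⟨⟨q, h4, h2⟩, rfl⟩
  rw [hc]
  exact key

/-- the drawing with unused darts -/
noncomputable def pre (hN : N.Balanced) : Pre (Fin N.n) where
  D := DD N
  finD := finDD N
  P := PP N
  base := bs N
  rev := rev N
  rot := rot N
  U d := Ur N d.1
  rev_rev := rv_rv N
  rev_U d hd := by
    rw [rev_val N hd]
    exact (Ur_rr N _).2 hd
  rev_ne d hd h := rr_ne N d.1 hd (by rw [← rev_val N hd, h])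
  sameCycle := sameCycle_iff N
  flux := flux N
  stem := stem N
  base_stem := base_stem N
  stem_U := stem_U N hN
  degree := degree N hN

/-! ### smooth walks -/

/-- smooth steps, without bounds -/
def RS (d e : RD) : Prop :=
  Ur N d ∧ Ur N e ∧ ∃ b x y p q, rr d = .nd b x y p ∧ e = .nd b x y q ∧
    isIn (ub N b x) (eb N b y) p = isIn (ub N b x) (eb N b y) q ∧ p ≠ q ∧
    (isStem p = true ∨ isStem q = true)

theorem stem_port : ∀ u e q t, isIn u e q = t → (isStem q = true ↔ q = st t) := by decide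

theorem smooth_iff (hN : N.Balanced) (d e : DD N) : (pre N hN).Smooth d e ↔ RS N d.1 e.1 := by
  constructor
  · rintro ⟨h1, h2, p, h3, h4, h5, h6⟩
    have hr := rev_val N h1
    obtain ⟨q1, h7, h8⟩ := (bs_iff N _ p).1 h3
    obtain ⟨q2, h9, h10⟩ := (bs_iff N _ p).1 h4
    change (rev N d).1 = _ at h7
    rw [hr] at h7
    refine ⟨h1, h2, p.1, p.2.1, p.2.2.1, q1, q2, h7, h9, h8.trans h10.symm, ?_, ?_⟩
    · rintro rfl
      apply h5
      apply Subtype.ext
      change (rev N d).1 = _
      rw [hr, h7, h9]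
    · rcases h6 with h6 | h6
      · left
        rw [stem_port _ _ _ _ h8]
        have h11 : (rev N d).1 = (stem N p).1 := congrArg Subtype.val h6
        rw [hr, h7] at h11
        injection h11
      · right
        rw [stem_port _ _ _ _ h10]
        have h11 : e.1 = (stem N p).1 := congrArg Subtype.val h6
        rw [h9] at h11
        injection h11
  · rintro ⟨h1, h2, b, x, y, p, q, h3, h4, h5, h6, h7⟩
    have hr := rev_val N h1
    have he : inb N (.nd b x y q) := h4 ▸ e.2
    refine ⟨h1, h2, (b, ⟨x, he.1⟩, ⟨y, he.2⟩, isIn (ub N b x) (eb N b y) q), ?_, ?_, ?_, ?_⟩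
    · exact (bs_iff N _ _).2 ⟨p, hr.trans h3, h5⟩
    · exact (bs_iff N _ _).2 ⟨q, h4, rfl⟩
    · intro h
      have h11 : (rev N d).1 = e.1 := congrArg Subtype.val h
      rw [hr, h3, h4] at h11
      injection h11 with _ _ _ h12
      exact h6 h12
    · rcases h7 with h7 | h7
      · left
        apply Subtype.ext
        change (rev N d).1 = _
        rw [hr, h3]
        rw [stem_port _ _ _ _ h5] at h7
        rw [h7]
        rfl
      · right
        apply Subtype.ext
        change e.1 = _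
        rw [h4]
        rw [stem_port _ _ _ _ rfl] at h7
        conv_lhs => rw [h7]
        rfl

/-- a smooth walk joins the vertices, without bounds -/
def RJ (u v : ℕ) : Prop :=
  ∃ d e, Ur N d ∧ (∃ k, d = .v u k) ∧ ReflTransGen (RS N) d e ∧ ∃ k, rr e = .v v k

theorem lift_path (hN : N.Balanced) {d e : RD} (h : ReflTransGen (RS N) d e) (hd : inb N d) :
    ∃ he : inb N e, ReflTransGen (pre N hN).Smooth ⟨d, hd⟩ ⟨e, he⟩ := by
  induction h with
  | refl => exact ⟨hd, .refl⟩
  | tail h1 h2 ih =>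
    obtain ⟨he, ih⟩ := ih
    exact ⟨inb_of_Ur N _ h2.2.1, ih.tail ((smooth_iff N hN _ _).2 h2)⟩

theorem used_end {d e : RD} (h : ReflTransGen (RS N) d e) (hd : Ur N d) : Ur N e := by
  induction h with
  | refl => exact hd
  | tail h1 h2 ih => exact h2.2.1

theorem bs_v (d : DD N) (u : Fin N.n) : bs N d = Sum.inl u ↔ ∃ k, d.1 = .v u k := by
  rcases d with ⟨⟨x, k⟩ | ⟨b, x, y, q⟩, hd⟩
  · constructor
    · intro h
      have h' : x = u := congrArg Fin.val (Sum.inl.inj h)
      exact ⟨k, by simp [h']⟩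
    · rintro ⟨k', h⟩
      injection h with h1 h2
      subst h1
      rfl
  · simp [bs]

theorem joins_iff (hN : N.Balanced) (u v : Fin N.n) : (pre N hN).Joins u v ↔ RJ N u v := by
  constructor
  · rintro ⟨d, e, h1, h2, h3, h4⟩
    have h5 : ReflTransGen (RS N) d.1 e.1 := by
      clear h4
      induction h3 with
      | refl => exact .refl
      | tail h5 h6 ih => exact ih.tail ((smooth_iff N hN _ _).1 h6)
    have h6 := used_end N h5 h1
    refine ⟨d.1, e.1, h1, (bs_v N _ _).1 h2, h5, ?_⟩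
    obtain ⟨k, hk⟩ := (bs_v N _ _).1 h4
    change (rev N e).1 = _ at hk
    rw [rev_val N h6] at hk
    exact ⟨k, hk⟩
  · rintro ⟨d, e, h1, h2, h3, h4⟩
    obtain ⟨he, h5⟩ := lift_path N hN h3 (inb_of_Ur N _ h1)
    have h6 := used_end N h3 h1
    refine ⟨⟨d, inb_of_Ur N _ h1⟩, ⟨e, he⟩, h1, (bs_v N _ _).2 h2, h5, ?_⟩
    refine (bs_v N (rev N ⟨e, he⟩) v).2 ?_
    rw [rev_val N h6]
    exact h4

end Pool.Agent.Helper91.SCNet
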