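import Pool.Agent.Helper91.SC.NetC

/-!
# Networks on a grid have drawings, part D: the joined pairs, and the result
-/

set_option autoImplicit false
set_option maxHeartbeats 4000000

namespace Pool.Agent.Helper91.SCNet

open Pool.Agent.Helper99.SC Equiv Relation

variable (N : Net)

/-- the dart of an arc in the direction of the arc -/
noncomputable def fd : NArc → RD
  | .inl (b, x, y) => bif ub N b x then rr (.nd b x y .S) else .nd b x y .S
  | .inr (b, x, y) => bif eb N b y then .nd b x y .E else rr (.nd b x y .E)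

theorem fd_up {b : Bool} {x y : ℕ} (h : N.up b x) : fd N (.inl (b, x, y)) = rr (.nd b x y .S) := by
  simp only [fd, (ub_true N).2 h, cond_true]

theorem fd_down {b : Bool} {x y : ℕ} (h : ¬ N.up b x) :
    fd N (.inl (b, x, y)) = .nd b x y .S := by
  simp only [fd, (ub_false N).2 h, cond_false]

theorem fd_east {b : Bool} {x y : ℕ} (h : N.east b y) :
    fd N (.inr (b, x, y)) = .nd b x y .E := by
  simp only [fd, (eb_true N).2 h, cond_true]

theorem fd_west {b : Bool} {x y : ℕ} (h : ¬ N.east b y) :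
    fd N (.inr (b, x, y)) = .nd b (x + 1) y .W := by
  simp only [fd, (eb_false N).2 h, cond_false, rr]

theorem Ur_fd (f : NArc) : Ur N (fd N f) ↔ N.Has f := by
  rcases f with ⟨b, x, y⟩ | ⟨b, x, y⟩
  · by_cases h : N.up b x
    · rw [fd_up N h, Ur_rr]
      exact Iff.rfl
    · rw [fd_down N h]
      exact Iff.rfl
  · by_cases h : N.east b y
    · rw [fd_east N h]
      exact Iff.rfl
    · rw [fd_west N h]
      exact Iff.rfl

/-- an in-arc ends at an in-port -/
theorem in_port {b : Bool} {x y : ℕ} {f : NArc} (h : N.In b x y f) : ∃ q,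
    rr (fd N f) = .nd b x y q ∧ isIn (ub N b x) (eb N b y) q = true ∧ q ≠ .I := by
  obtain ⟨_, h2⟩ := h
  rcases h2 with ⟨h2, rfl⟩ | ⟨h2, rfl⟩ | ⟨h2, x', rfl, rfl⟩ | ⟨h2, rfl⟩
  · refine ⟨.S, ?_, ?_, by decide⟩
    · rw [fd_up N h2, rr_rr]
    · rw [(ub_true N).2 h2]
      rfl
  · refine ⟨.N, ?_, ?_, by decide⟩
    · rw [fd_down N h2]
      cases b <;> rfl
    · rw [(ub_false N).2 h2]
      rfl
  · refine ⟨.W, ?_, ?_, by decide⟩
    · rw [fd_east N h2]
      rfl
    · rw [(eb_true N).2 h2]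
      rfl
  · refine ⟨.E, ?_, ?_, by decide⟩
    · rw [fd_west N h2]
      rfl
    · rw [(eb_false N).2 h2]
      rfl

/-- an out-arc starts at an out-port -/
theorem out_port {b : Bool} {x y : ℕ} {f : NArc} (h : N.Out b x y f) : ∃ q,
    fd N f = .nd b x y q ∧ isIn (ub N b x) (eb N b y) q = false ∧ q ≠ .O := by
  obtain ⟨_, h2⟩ := h
  rcases h2 with ⟨h2, rfl⟩ | ⟨h2, rfl⟩ | ⟨h2, rfl⟩ | ⟨h2, x', rfl, rfl⟩
  · refine ⟨.N, ?_, ?_, by decide⟩
    · rw [fd_up N h2]
      cases b <;> rfl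
    · rw [(ub_true N).2 h2]
      rfl
  · refine ⟨.S, ?_, ?_, by decide⟩
    · rw [fd_down N h2]
    · rw [(ub_false N).2 h2]
      rfl
  · refine ⟨.E, ?_, ?_, by decide⟩
    · rw [fd_east N h2]
    · rw [(eb_true N).2 h2]
      rfl
  · refine ⟨.W, ?_, ?_, by decide⟩
    · rw [fd_west N h2]
    · rw [(eb_false N).2 h2]
      rfl

/-- the end of an arc is a vertex or an in-port -/
theorem end_cases (f : NArc) (hf : N.Has f) : (∃ b x y q, rr (fd N f) = .nd b x y q ∧
      isIn (ub N b x) (eb N b y) q = true ∧ q ≠ .I ∧ N.In b x y f) ∨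
    ∃ b x, f = .inl (b, x, 0) ∧ ¬ N.up b x := by
  have key : ∀ b x y, N.In b x y f → (∃ b x y q, rr (fd N f) = .nd b x y q ∧
      isIn (ub N b x) (eb N b y) q = true ∧ q ≠ .I ∧ N.In b x y f) := by
    intro b x y h
    obtain ⟨q, h1, h2, h3⟩ := in_port N h
    exact ⟨b, x, y, q, h1, h2, h3, h⟩
  rcases f with ⟨b, x, y⟩ | ⟨b, x, y⟩
  · by_cases h : N.up b x
    · exact .inl (key b x y ⟨hf, .inl ⟨h, rfl⟩⟩)
    · cases y with
      | zero => exact .inr ⟨b, x, rfl, h⟩
      | succ y => exact .inl (key b x y ⟨hf, .inr (.inl ⟨h, rfl⟩)⟩)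
  · by_cases h : N.east b y
    · exact .inl (key b (x + 1) y ⟨hf, .inr (.inr (.inl ⟨h, x, rfl, rfl⟩))⟩)
    · exact .inl (key b x y ⟨hf, .inr (.inr (.inr ⟨h, rfl⟩))⟩)

/-- a used out-port belongs to an out-arc -/
theorem out_arc {b : Bool} {x y : ℕ} {q : Port} (h1 : isIn (ub N b x) (eb N b y) q = false)
    (h2 : q ≠ .O) (h3 : Ur N (.nd b x y q)) : ∃ f, N.Out b x y f ∧ fd N f = .nd b x y q := by
  cases q
  · have h := (eb_false N).1 h1
    cases x with
    | zero => exact h3.elim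
    | succ x => exact ⟨.inr (b, x, y), ⟨h3, .inr (.inr (.inr ⟨h, x, rfl, rfl⟩))⟩, fd_west N h⟩
  · have h : N.east b y := (eb_true N).1 (by simpa [isIn] using h1)
    exact ⟨.inr (b, x, y), ⟨h3, .inr (.inr (.inl ⟨h, rfl⟩))⟩, fd_east N h⟩
  · have h : N.up b x := (ub_true N).1 (by simpa [isIn] using h1)
    refine ⟨.inl (b, x, y + 1), ⟨h3, .inl ⟨h, rfl⟩⟩, ?_⟩
    rw [fd_up N h]
    cases b <;> rfl
  · have h := (ub_false N).1 h1
    exact ⟨.inl (b, x, y), ⟨h3, .inr (.inl ⟨h, rfl⟩)⟩, fd_down N h⟩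
  · exact absurd h1 (by simp [isIn])
  · exact absurd rfl h2

/-- the side of an arc -/
def side : NArc → Bool
  | .inl (b, _, _) => b
  | .inr (b, _, _) => b

theorem side_in {b : Bool} {x y : ℕ} {f : NArc} (h : N.In b x y f) : side f = b := by
  obtain ⟨_, h2⟩ := h
  rcases h2 with ⟨h2, rfl⟩ | ⟨h2, rfl⟩ | ⟨h2, x', rfl, rfl⟩ | ⟨h2, rfl⟩ <;> rfl

theorem side_out {b : Bool} {x y : ℕ} {f : NArc} (h : N.Out b x y f) : side f = b := by
  obtain ⟨_, h2⟩ := h
  rcases h2 with ⟨h2, rfl⟩ | ⟨h2, rfl⟩ | ⟨h2, rfl⟩ | ⟨h2, x', rfl, rfl⟩ <;> rfl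

theorem side_path {e f : NArc} (h : ReflTransGen N.Step e f) : side f = side e := by
  induction h with
  | refl => rfl
  | tail h1 h2 ih =>
    obtain ⟨b, x, y, h3, h4⟩ := h2
    rw [side_out N h4, ← side_in N h3, ih]

theorem stem_in : ∀ u e q, isIn u e q = true → (isStem q = true ↔ q = .I) := by decide

/-- walks in the direction of the arcs -/
theorem forward {f₀ : NArc} (hf₀ : N.Has f₀) {e : RD} (h : ReflTransGen (RS N) (fd N f₀) e) :
    (∃ f, N.Has f ∧ e = fd N f ∧ ReflTransGen N.Step f₀ f) ∨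
    ∃ b x y f, e = .nd b x y .I ∧ N.In b x y f ∧ ReflTransGen N.Step f₀ f := by
  induction h with
  | refl => exact .inl ⟨f₀, hf₀, rfl, .refl⟩
  | tail h1 h2 ih =>
    obtain ⟨_, hU, b, x, y, p, q, h3, rfl, h5, h6, h7⟩ := h2
    rcases ih with ⟨f, hf, rfl, hR⟩ | ⟨b', x', y', f, rfl, hin, hR⟩
    · rcases end_cases N f hf with ⟨b', x', y', q', h8, h9, h10, h11⟩ | ⟨b', x', rfl, h8⟩
      · rw [h3] at h8
        injection h8 with e1 e2 e3 e4
        subst e1 e2 e3 e4
        right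
        have hp : ¬ isStem p = true := fun hs => h10 ((stem_in _ _ _ h9).1 hs)
        have hq : q = .I := (stem_in _ _ _ (h5.symm.trans h9)).1 (h7.resolve_left hp)
        subst hq
        exact ⟨b, x, y, f, rfl, h11, hR⟩
      · rw [fd_down N h8] at h3
        cases b' <;> simp [rr] at h3
    · injection h3 with e1 e2 e3 e4
      subst e1 e2 e3 e4
      left
      obtain ⟨f', h8, h9⟩ := out_arc N h5.symm (Ne.symm h6) hU
      exact ⟨f', h8.1, h9.symm, hR.tail ⟨b', x', y', hin, h8⟩⟩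

/-- the dart of the vertex `u` on the side `b` -/
def vd (b : Bool) (u : ℕ) : RD := .v u (bif b then .N else .S)

theorem rr_vd (b : Bool) (u : ℕ) : rr (vd b u) = .nd b u 0 .S := by cases b <;> rfl

theorem rr_S (b : Bool) (u : ℕ) : rr (.nd b u 0 .S) = vd b u := by cases b <;> rfl

theorem reach_of_path {b : Bool} {u v : ℕ} {k : VPort} {e : RD} (hup : N.up b u)
    (hve : N.ve b u 0) (h : ReflTransGen (RS N) (vd b u) e) (he : rr e = .v v k) :
    N.Reach u v := by
  have hfd : fd N (.inl (b, u, 0)) = vd b u := by rw [fd_up N hup, rr_S]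
  rw [← hfd] at h
  rcases forward N (f₀ := .inl (b, u, 0)) hve h with ⟨f, hf, rfl, hR⟩ | ⟨b', x', y', f, rfl, hin, hR⟩
  · rcases end_cases N f hf with ⟨b', x', y', q', h8, h9, h10, h11⟩ | ⟨b', x', rfl, h8⟩
    · rw [h8] at he
      exact absurd he (by simp)
    · have hs := side_path N hR
      change b' = b at hs
      subst hs
      rw [fd_down N h8, rr_S] at he
      injection he with h9 h10
      subst h9
      exact ⟨b', hup, hve, h8, hf, hR⟩
  · exact absurd he (by simp [rr])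

theorem RS_symm {d e : RD} (h : RS N d e) : RS N (rr e) (rr d) := by
  obtain ⟨h1, h2, b, x, y, p, q, h3, h4, h5, h6, h7⟩ := h
  exact ⟨(Ur_rr N _).2 h2, (Ur_rr N _).2 h1, b, x, y, q, p, by rw [rr_rr, h4], h3, h5.symm,
    h6.symm, h7.symm⟩

theorem path_symm {d e : RD} (h : ReflTransGen (RS N) d e) :
    ReflTransGen (RS N) (rr e) (rr d) := by
  induction h with
  | refl => exact .refl
  | tail h1 h2 ih => exact ReflTransGen.head (RS_symm N h2) ih

theorem RJ_symm {u v : ℕ} (h : RJ N u v) : RJ N v u := by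
  obtain ⟨d, e, h1, ⟨k, h2⟩, h3, h4⟩ := h
  refine ⟨rr e, rr d, (Ur_rr N _).2 (used_end N h3 h1), h4, path_symm N h3, k, ?_⟩
  rw [rr_rr, h2]

/-- the direction of a dart -/
noncomputable def fw : RD → Bool
  | .v x .N => ub N true x
  | .v x .S => ub N false x
  | .v _ _ => true
  | .nd b x y p => fwp (ub N b x) (eb N b y) p

theorem fw_rr (d : RD) (b : Bool) (x y : ℕ) (p : Port) (hd : Ur N d) (h : rr d = .nd b x y p) :
    fw N d = !fwp (ub N b x) (eb N b y) p := by
  have hd' : d = rr (.nd b x y p) := by rw [← h, rr_rr]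
  subst hd'
  rw [Ur_rr] at hd
  cases p
  · cases x with
    | zero => exact hd.elim
    | succ x => simp [rr, fw, fwp]
  · simp [rr, fw, fwp]
  · cases b <;> simp [rr, fw, fwp]
  · cases y <;> cases b <;> simp [rr, fw, fwp]
  · cases b <;> rfl
  · cases b <;> rfl

theorem fw_step {d e : RD} (h : RS N d e) : fw N e = fw N d := by
  obtain ⟨h1, h2, b, x, y, p, q, h3, h4, h5, h6, h7⟩ := h
  rw [fw_rr N d b x y p h1 h3, fwp_smooth _ _ _ _ h5 h6 h7, h4]
  simp [fw]

theorem fw_path {d e : RD} (h : ReflTransGen (RS N) d e) : fw N e = fw N d := by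
  induction h with
  | refl => rfl
  | tail h1 h2 ih => rw [fw_step N h2, ih]

theorem path_row {d e : RD} {x : ℕ} {k : VPort} (hd : rr d = .v x k)
    (h : ReflTransGen (RS N) d e) : e = d := by
  rcases ReflTransGen.cases_head h with h | ⟨c, h1, h2⟩
  · exact h.symm
  · obtain ⟨_, _, b, x, y, p, q, h3, _⟩ := h1
    rw [hd] at h3
    exact absurd h3 (by simp)

theorem path_nd {d e : RD} (h : ReflTransGen (RS N) d e) (hne : e ≠ d) :
    ∃ b x y q, e = .nd b x y q := by
  rcases ReflTransGen.cases_tail h with h | ⟨c, h1, h2⟩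
  · exact absurd h hne
  · obtain ⟨_, _, b, x, y, p, q, _, h4, _⟩ := h2
    exact ⟨b, x, y, q, h4⟩

/-- a used port at a node whose other end is a vertex -/
theorem nd_vertex {b : Bool} {x y v : ℕ} {q : Port} {k : VPort}
    (h : rr (.nd b x y q) = .v v k) : q = .S ∧ y = 0 ∧ v = x := by
  cases q <;> cases x <;> cases y <;> cases b <;> simp_all [rr]

theorem reach_of_vd {b : Bool} {u v : ℕ} {e : RD} (hve : N.ve b u 0)
    (h : ReflTransGen (RS N) (vd b u) e) (he : ∃ k, rr e = .v v k) :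
    N.Reach u v ∨ N.Reach v u := by
  obtain ⟨k, he⟩ := he
  by_cases hup : N.up b u
  · exact .inl (reach_of_path N hup hve h he)
  · right
    have hUd : Ur N (vd b u) := by
      have : Ur N (rr (.nd b u 0 .S)) := (Ur_rr N _).2 hve
      rwa [rr_S] at this
    have hUe := used_end N h hUd
    have hne : e ≠ vd b u := by
      rintro rfl
      rw [rr_vd] at he
      exact absurd he (by simp)
    obtain ⟨b', x, y, q, rfl⟩ := path_nd N h hne
    obtain ⟨rfl, rfl, rfl⟩ := nd_vertex he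
    have hfw := fw_path N h
    have h1 : fw N (vd b u) = false := by
      cases b <;> exact (ub_false N).2 hup
    rw [h1] at hfw
    have hup' : N.up b' v := by
      have h2 : (!ub N b' v) = false := hfw
      exact (ub_true N).1 (by simpa using h2)
    have h3 := path_symm N h
    rw [rr_S] at h3
    refine reach_of_path N (k := bif b then .N else .S) hup' hUe h3 ?_
    rw [rr_rr]
    rfl

theorem path_of_step {e f : NArc} (h : N.Step e f) :
    ReflTransGen (RS N) (fd N e) (fd N f) := by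
  obtain ⟨b, x, y, h1, h2⟩ := h
  obtain ⟨p, h3, h4, h5⟩ := in_port N h1
  obtain ⟨q, h6, h7, h8⟩ := out_port N h2
  have hI : Ur N (.nd b x y .I) := ⟨e, h1⟩
  have s1 : RS N (fd N e) (.nd b x y .I) :=
    ⟨(Ur_fd N e).2 h1.1, hI, b, x, y, p, .I, h3, rfl, h4, h5, .inr rfl⟩
  have s2 : RS N (.nd b x y .I) (fd N f) :=
    ⟨hI, (Ur_fd N f).2 h2.1, b, x, y, .O, q, rfl, h6, h7.symm, Ne.symm h8, .inl rfl⟩
  exact (ReflTransGen.single s1).tail s2

theorem RJ_of_reach {u v : ℕ} (h : N.Reach u v) : RJ N u v := by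
  obtain ⟨b, h1, h2, h3, h4, h5⟩ := h
  have h7 : ∀ f, ReflTransGen N.Step (.inl (b, u, 0)) f →
      ReflTransGen (RS N) (fd N (.inl (b, u, 0))) (fd N f) := by
    intro f h5
    induction h5 with
    | refl => exact .refl
    | tail _ h7 ih => exact ih.trans (path_of_step N h7)
  have h6 := h7 _ h5
  have h8 : N.Has (.inl (b, u, 0)) := h2
  refine ⟨_, _, (Ur_fd N _).2 h8, ⟨bif b then .N else .S, ?_⟩, h6, bif b then .N else .S, ?_⟩
  · rw [fd_up N h1, rr_S]
    rfl
  · rw [fd_down N h3, rr_S]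
    rfl

theorem RJ_iff {u v : ℕ} (hu : u < N.n) (hv : v < N.n) : RJ N u v ↔
    (u + 1 = v ∨ v + 1 = u ∨ N.Reach u v ∨ N.Reach v u) := by
  constructor
  · rintro ⟨d, e, h1, ⟨k, rfl⟩, h3, k', h4⟩
    cases k
    · have := path_row N (x := u + 1) (k := .W) rfl h3
      subst this
      injection h4 with h5
      exact .inl h5
    · exact .inr (.inr (reach_of_vd N (b := true) h1 h3 ⟨k', h4⟩))
    · cases u with
      | zero => exact h1.elim
      | succ u =>
        have := path_row N (x := u) (k := .E) rfl h3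
        subst this
        injection h4 with h5
        exact .inr (.inl (by rw [h5]))
    · exact .inr (.inr (reach_of_vd N (b := false) h1 h3 ⟨k', h4⟩))
  · have hrow : ∀ u v, v < N.n → u + 1 = v → RJ N u v := by
      rintro u v hv rfl
      exact ⟨.v u .E, .v u .E, hv, ⟨_, rfl⟩, .refl, _, rfl⟩
    rintro (h | h | h | h)
    · exact hrow u v hv h
    · exact RJ_symm N (hrow v u hu h)
    · exact RJ_of_reach N h
    · exact RJ_symm N (RJ_of_reach N h)

/-- MODULE SC9. -/
theorem sc_net (hp : M_pre) : M_net := by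
  intro N hN
  obtain ⟨T, hT⟩ := hp (Fin N.n) (pre N hN)
  refine ⟨T, fun u v => ?_⟩
  rw [hT, joins_iff, RJ_iff N u.2 v.2]

end Pool.Agent.Helper91.SCNet
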